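import Pool.Agent.Lib.MP_af33d6_an.Separate

open Polynomial Pool.Agent.Lib.MP_af33d6_an

namespace Pool.Agent.Results.MP_af33d6_an.Counterexample

/-- Two non-conjugate rational maps `f = P / Q` and `g = - P / Q` of degree eleven with the same
multiplier spectrum, neither of them a Lattes map, that are not elementarily equivalent. -/
theorem result : ∃ (P Q : ℂ[X]) (f g : P1 → P1),
    P = 25 * X ^ 11 - 275 * X ^ 9 + 1100 * X ^ 7 - 1804 * X ^ 5 + 880 * X ^ 3 ∧
    Q = 55 * X ^ 8 - 440 * X ^ 6 + 1100 * X ^ 4 - 880 * X ^ 2 + 256 ∧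
    f = ratMap P Q ∧ g = ratMap (-P) Q ∧
    IsRat 11 f ∧ IsRat 11 g ∧ ¬ IsConjugate f g ∧ SameSpectrum f g ∧
    ¬ IsLattes f ∧ ¬ IsLattes g ∧ ¬ ElemEquiv f g :=
  ⟨PP, QQ, fe 1, fe (-1), rfl, rfl, by rw [fe_eq one_ne_zero]; simp,
    by rw [fe_eq (by norm_num)]; simp,
    isRat_fe one_ne_zero, isRat_fe (by norm_num),
    fun h => not_inv_fe_neg (inv_fe_one.of_isConjugate h), sameSpectrum,
    not_isLattes_fe one_ne_zero, not_isLattes_fe (by norm_num),
    fun h => not_inv_fe_neg (inv_fe_one.of_elemEquiv h)⟩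

end Pool.Agent.Results.MP_af33d6_an.Counterexample
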