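import Pool.Agent.Lib.MP_af33d6_an.OD.Fam2

open Pool.Agent.Lib.MP_af33d6_an

namespace Pool.Agent.Results.MP_af33d6_an.Families

/-- In every odd degree `d` not of the form `2 ^ k ± 1` or `3 * 2 ^ k ± 1`, and outside any
countable set of conjugacy classes, there are two non-conjugate, not elementarily equivalent
rational maps with the same multiplier spectrum, neither of them a Lattes map. -/
theorem result (d : ℕ) (hodd : Odd d)
    (hd : ∀ k : ℕ, d + 1 ≠ 2 ^ k ∧ d ≠ 2 ^ k + 1 ∧ d + 1 ≠ 3 * 2 ^ k ∧ d ≠ 3 * 2 ^ k + 1)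
    (T : Set (P1 → P1)) (hT : T.Countable) :
    ∃ f g : P1 → P1, (IsRat d f ∧ IsRat d g ∧ ¬ IsConjugate f g ∧ SameSpectrum f g ∧
      ¬ IsLattes f ∧ ¬ IsLattes g ∧ ¬ ElemEquiv f g) ∧
      ∀ h ∈ T, ¬ IsConjugate f h ∧ ¬ IsConjugate g h :=
  OD.family_both hodd hd T hT

end Pool.Agent.Results.MP_af33d6_an.Families
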