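import Pool.Agent.Lib.MP_af33d6_an.OD.Seven

open Pool.Agent.Lib.MP_af33d6_an

namespace Pool.Agent.Results.MP_af33d6_an.OddDegrees

/-- In degree seven, and in every odd degree `d` such that neither `d + 1` nor `d - 1` is a power
of two, there are two non-conjugate rational maps with the same multiplier spectrum, neither of
them a Lattes map, that are not elementarily equivalent. -/
theorem result (d : ℕ) (hd : d = 7 ∨ (Odd d ∧ ∀ k : ℕ, d + 1 ≠ 2 ^ k ∧ d ≠ 2 ^ k + 1)) :
    ∃ f g : P1 → P1, IsRat d f ∧ IsRat d g ∧ ¬ IsConjugate f g ∧ SameSpectrum f g ∧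
      ¬ IsLattes f ∧ ¬ IsLattes g ∧ ¬ ElemEquiv f g := by
  rcases hd with rfl | ⟨h1, h2⟩
  · exact ⟨_, _, OD.counter7⟩
  · exact OD.odd_degree h1 h2

end Pool.Agent.Results.MP_af33d6_an.OddDegrees
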